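import Mathlib
import Pool.Agent.N728.QL.Def
import Pool.Agent.H442R2.EHI.PntErr
import Pool.Agent.H343R2.EH.Psi
import Pool.Agent.H343R2.EH.Primes

set_option autoImplicit false

/-! # The theorem of Bombieri and Vinogradov at the sharp level, free heights and free classes. -/

namespace Pool.Agent.N622.QL

open Finset H343E
open Pool.Agent.H398R2.BV (ev_log)

noncomputable section

/-- `θ(X; m, r)` -/
def TH (X m r : ℕ) : ℝ :=
  ∑ p ∈ (Icc 1 X).filter (fun p => p.Prime ∧ p ≡ r [MOD m]), Real.log p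

/-- the error term -/
def EH (X m r : ℕ) : ℝ := TH X m r - (X : ℝ) / Nat.totient m

lemma TH_mono (m r : ℕ) {X Y : ℕ} (h : X ≤ Y) : TH X m r ≤ TH Y m r := by
  unfold TH
  apply sum_le_sum_of_subset_of_nonneg
  · intro p hp
    simp only [mem_filter, mem_Icc] at hp ⊢
    exact ⟨⟨hp.1.1, hp.1.2.trans h⟩, hp.2⟩
  · intro p _ _
    exact Real.log_natCast_nonneg p

lemma EH_zero (m r : ℕ) : EH 0 m r = 0 := by
  unfold EH TH
  simp

/-- between two grid points -/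
lemma EH_between {y0 y y1 m r : ℕ} (hm : 1 ≤ m) (h0 : y0 ≤ y) (h1 : y ≤ y1) :
    |EH y m r| ≤ |EH y0 m r| + |EH y1 m r| + ((y1 : ℝ) - y0) * (1 / (Nat.totient m : ℝ)) := by
  have ht : (0 : ℝ) < Nat.totient m := by exact_mod_cast Nat.totient_pos.2 hm
  have a1 := TH_mono m r h0
  have a2 := TH_mono m r h1
  have b1 : (y0 : ℝ) / (Nat.totient m : ℝ) ≤ y / (Nat.totient m : ℝ) :=
    div_le_div_of_nonneg_right (by exact_mod_cast h0) ht.le
  have b2 : (y : ℝ) / (Nat.totient m : ℝ) ≤ y1 / (Nat.totient m : ℝ) :=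
    div_le_div_of_nonneg_right (by exact_mod_cast h1) ht.le
  have b3 : ((y1 : ℝ) - y0) * (1 / (Nat.totient m : ℝ)) =
      y1 / (Nat.totient m : ℝ) - y0 / (Nat.totient m : ℝ) := by ring
  rw [b3]
  have e0 : EH y0 m r = TH y0 m r - y0 / (Nat.totient m : ℝ) := rfl
  have e1 : EH y m r = TH y m r - y / (Nat.totient m : ℝ) := rfl
  have e2 : EH y1 m r = TH y1 m r - y1 / (Nat.totient m : ℝ) := rfl
  have f0 := neg_abs_le (EH y0 m r)
  have f1 := le_abs_self (EH y1 m r)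
  have g0 := abs_nonneg (EH y0 m r)
  have g1 := abs_nonneg (EH y1 m r)
  rw [abs_le]
  constructor <;> linarith

lemma psi1_eq (X : ℕ) : psi1 (X : ℝ) = Chebyshev.psi (X : ℝ) := by
  unfold psi1 Chebyshev.psi
  congr 1

/-- prime powers -/
lemma psiAP_TH (X m r : ℕ) :
    |psiAP (X : ℝ) m r - TH X m r| ≤ Chebyshev.psi (X : ℝ) - Chebyshev.theta (X : ℝ) := by
  classical
  have h1 : TH X m r = ∑ n ∈ ((Icc 1 X).filter (fun n => n ≡ r [MOD m])).filter Nat.Prime,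
      ArithmeticFunction.vonMangoldt n := by
    unfold TH
    rw [filter_filter]
    refine sum_congr ?_ fun p hp => ?_
    · ext p
      simp only [mem_filter]
      tauto
    · rw [ArithmeticFunction.vonMangoldt_apply_prime (mem_filter.mp hp).2.2]
  have h2 : psiAP (X : ℝ) m r = ∑ n ∈ (Icc 1 X).filter (fun n => n ≡ r [MOD m]),
      ArithmeticFunction.vonMangoldt n := by
    unfold psiAP
    rw [Nat.floor_natCast]
  have h3 : psiAP (X : ℝ) m r - TH X m r =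
      ∑ n ∈ ((Icc 1 X).filter (fun n => n ≡ r [MOD m])).filter (fun n => ¬ n.Prime),
      ArithmeticFunction.vonMangoldt n := by
    rw [h1, h2, ← sum_filter_add_sum_filter_not ((Icc 1 X).filter (fun n => n ≡ r [MOD m]))
      Nat.Prime]
    ring
  rw [h3, abs_of_nonneg (sum_nonneg fun _ _ => ArithmeticFunction.vonMangoldt_nonneg),
    Chebyshev.psi_sub_theta_eq_sum_not_prime, Nat.floor_natCast]
  apply sum_le_sum_of_subset_of_nonneg
  · intro n hn
    simp only [mem_filter, mem_Icc, mem_Ioc] at hn ⊢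
    exact ⟨⟨by omega, hn.1.1.2⟩, hn.2⟩
  · intro _ _ _
    exact ArithmeticFunction.vonMangoldt_nonneg

lemma EH_le {X m r : ℕ} :
    |EH X m r| ≤ |psiAP (X : ℝ) m r - psi1 (X : ℝ) / (Nat.totient m : ℝ)| +
      |Chebyshev.psi (X : ℝ) - X| * (1 / (Nat.totient m : ℝ)) +
      (Chebyshev.psi (X : ℝ) - Chebyshev.theta (X : ℝ)) := by
  have h1 := psiAP_TH X m r
  have h2 : EH X m r = (psiAP (X : ℝ) m r - psi1 (X : ℝ) / (Nat.totient m : ℝ)) +
      (Chebyshev.psi (X : ℝ) - X) * (1 / (Nat.totient m : ℝ)) - (psiAP (X : ℝ) m r - TH X m r) := by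
    rw [psi1_eq]
    unfold EH
    ring
  rw [h2]
  refine (abs_sub _ _).trans (add_le_add ((abs_add_le _ _).trans (add_le_add le_rfl ?_)) h1)
  rw [abs_mul, abs_of_nonneg (show (0 : ℝ) ≤ 1 / (Nat.totient m : ℝ) by positivity)]

lemma psiAP_mod (X : ℝ) (m r : ℕ) : psiAP X m (r % m) = psiAP X m r := by
  unfold psiAP
  refine sum_congr ?_ fun _ _ => rfl
  refine filter_congr fun n _ => ?_
  simp only [Nat.ModEq, Nat.mod_mod]

lemma sum_inv (c : ℕ) (hc : ∀ Q : ℕ, ∑ e ∈ Icc 1 Q, (1 : ℝ) ^ e.primeFactors.card /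
    (Nat.totient e : ℝ) ≤ (1 + Real.log Q) ^ c) {x D : ℕ} (hD : D ≤ x) (hx : 1 ≤ Real.log x) :
    ∑ m ∈ Icc 1 D, (1 / (Nat.totient m : ℝ)) ≤ (2 * Real.log x) ^ c := by
  have h1 := hc D
  simp only [one_pow] at h1
  refine h1.trans (pow_le_pow_left₀ ?_ ?_ c)
  · have := Real.log_natCast_nonneg D
    linarith
  · rcases Nat.eq_zero_or_pos D with rfl | h
    · simp only [CharP.cast_eq_zero, Real.log_zero]
      linarith
    · have := Real.log_le_log (by exact_mod_cast h) (show (D : ℝ) ≤ x by exact_mod_cast hD)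
      linarith

/-- grid points -/
lemma grid_pt (A V : ℕ) : ∃ K X0 : ℕ, ∀ x : ℕ, X0 ≤ x → ∀ D : ℕ,
    (D : ℝ) ^ 2 * Real.log x ^ K ≤ x → ∀ r : ℕ → ℕ, (∀ m ∈ Icc 1 D, Nat.Coprime (r m) m) →
    ∀ X : ℕ, X ≤ x → (x : ℝ) ≤ X * (4 * Real.log x ^ V) →
    ∑ m ∈ Icc 1 D, |EH X m (r m)| ≤ x / Real.log x ^ A := by
  classical
  obtain ⟨k, hk⟩ := Pool.Agent.H398R2.BV.sum_pow_omega_div_totient 1 le_rfl
  obtain ⟨c0, hc0⟩ : ∃ c : ℕ, c = 2 ^ k := ⟨_, rfl⟩
  rw [← hc0] at hk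
  obtain ⟨U, hU⟩ : ∃ U : ℕ, U = A + 1 := ⟨_, rfl⟩
  obtain ⟨W, hW⟩ : ∃ W : ℕ, W = A + c0 + 1 := ⟨_, rfl⟩
  obtain ⟨B, X1, hbv⟩ := unsmoothed U
  obtain ⟨C, hC, N1, hpnt⟩ := Pool.Agent.H442R2.EHI.PntErrAux.largeU W
  obtain ⟨K, hK⟩ : ∃ K : ℕ, K = B + V + 2 * A + 6 := ⟨_, rfl⟩
  obtain ⟨S, hS⟩ : ∃ S : ℝ, S = 2 ^ U + (C * 2 ^ W + 2) * 2 ^ c0 + 2 := ⟨_, rfl⟩
  have hev1 := ev_log 4 V (1 / 2) (by norm_num)
  have hev2 : ∀ᶠ X : ℝ in Filter.atTop, max X1 (max N1 4) ≤ √X :=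
    Real.tendsto_sqrt_atTop.eventually (Filter.eventually_ge_atTop _)
  have hev3 : ∀ᶠ X : ℝ in Filter.atTop, S + 4 ≤ Real.log X :=
    Real.tendsto_log_atTop.eventually (Filter.eventually_ge_atTop _)
  have hev4 := ev_log 1 W (1 / 2) (by norm_num)
  have hev5 : ∀ᶠ X : ℝ in Filter.atTop, (4 : ℝ) ≤ X := Filter.eventually_ge_atTop _
  obtain ⟨Y, hY⟩ := Filter.eventually_atTop.mp
    (hev1.and (hev2.and (hev3.and (hev4.and hev5))))
  refine ⟨K, ⌈Y⌉₊, ?_⟩
  intro x hx D hD r hr X hXx hXV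
  obtain ⟨g1, g2, g3, g4, g5⟩ := hY x (Nat.ceil_le.mp hx)
  obtain ⟨ℓ, hℓ⟩ : ∃ ℓ : ℝ, ℓ = Real.log x := ⟨_, rfl⟩
  rw [← hℓ] at g1 g3 g4 hD hXV ⊢
  have hS0 : 0 < S := by rw [hS]; positivity
  have hx0 : (0 : ℝ) < x := by linarith
  have hℓ4 : 4 ≤ ℓ := by linarith
  have hℓ0 : 0 < ℓ := by linarith
  have hℓ1 : 1 ≤ ℓ := by linarith
  have hsx : √(x : ℝ) * √(x : ℝ) = x := Real.mul_self_sqrt hx0.le
  have hsx0 : 0 < √(x : ℝ) := Real.sqrt_pos.mpr hx0
  rw [← Real.sqrt_eq_rpow] at g1 g4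
  have hXs : √(x : ℝ) ≤ X := by
    have h1 : √(x : ℝ) * √(x : ℝ) ≤ X * √(x : ℝ) := by
      rw [hsx]
      exact hXV.trans (mul_le_mul_of_nonneg_left g1 (Nat.cast_nonneg X))
    exact le_of_mul_le_mul_right h1 hsx0
  have hXX1 : X1 ≤ X := (le_max_left _ _).trans (g2.trans hXs)
  have hXN1 : N1 ≤ X := by
    have : (N1 : ℝ) ≤ X := (le_max_left _ _).trans ((le_max_right _ _).trans (g2.trans hXs))
    exact_mod_cast this
  have hX4 : (4 : ℝ) ≤ X := (le_max_right _ _).trans ((le_max_right _ _).trans (g2.trans hXs))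
  have hX0 : (0 : ℝ) < X := by linarith
  have hXx' : (X : ℝ) ≤ x := by exact_mod_cast hXx
  have hlX : Real.log X ≤ ℓ := by rw [hℓ]; exact Real.log_le_log hX0 hXx'
  have hlX2 : ℓ / 2 ≤ Real.log X := by
    have h1 := Real.log_le_log hsx0 hXs
    rw [Real.log_sqrt hx0.le, ← hℓ] at h1
    exact h1
  have hlX0 : 0 < Real.log X := by linarith
  -- the level
  have hK1 : (x : ℝ) / ℓ ^ K ≤ X / Real.log X ^ B := by
    rw [div_le_div_iff₀ (by positivity) (by positivity)]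
    calc (x : ℝ) * Real.log X ^ B ≤ (X * (4 * ℓ ^ V)) * ℓ ^ B := by gcongr
      _ ≤ (X * (ℓ * ℓ ^ V)) * ℓ ^ B := by gcongr
      _ = X * ℓ ^ (B + V + 1) := by ring
      _ ≤ X * ℓ ^ K := by
          gcongr
          omega
  have hDK : (D : ℝ) ^ 2 ≤ x / ℓ ^ K := by
    rw [le_div_iff₀ (by positivity)]
    exact hD
  have hD1 : (D : ℝ) ≤ D ^ 2 := by
    have : D ≤ D ^ 2 := Nat.le_self_pow (by norm_num) D
    exact_mod_cast this
  have hDx : D ≤ x := by
    have h1 : (D : ℝ) ≤ x := by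
      refine hD1.trans (hDK.trans ?_)
      exact div_le_self hx0.le (one_le_pow₀ hℓ1)
    exact_mod_cast h1
  -- the classes
  set L : ℕ → Finset ℕ := fun q => if q ∈ Icc 1 D then {r q % q} else ∅ with hL
  have hfam : Fam 1 L := by
    constructor
    · intro q a ha
      by_cases hq : q ∈ Icc 1 D
      · rw [hL] at ha
        simp only [if_pos hq, mem_singleton] at ha
        subst ha
        have hq0 : 0 < q := (mem_Icc.mp hq).1
        refine ⟨Nat.mod_lt _ hq0, ?_⟩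
        have h1 := hr q hq
        unfold Nat.Coprime at h1 ⊢
        rw [← Nat.gcd_rec, Nat.gcd_comm]
        exact h1
      · rw [hL] at ha
        simp only [if_neg hq] at ha
        exact absurd ha (notMem_empty _)
    · intro q
      by_cases hq : q ∈ Icc 1 D
      · rw [hL]; simp only [if_pos hq, card_singleton]; norm_num
      · rw [hL]; simp only [if_neg hq, card_empty]; norm_num
  have h1 := hbv X hXX1 1 le_rfl D ((hD1.trans hDK).trans hK1) (by
    rw [one_mul]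
    exact hDK.trans hK1) L hfam
  have h2 : ∑ q ∈ Icc 1 D, ∑ a ∈ L q, |psiAP X q a - psi1 X / (Nat.totient q : ℝ)| =
      ∑ q ∈ Icc 1 D, |psiAP X q (r q) - psi1 X / (Nat.totient q : ℝ)| := by
    refine sum_congr rfl fun q hq => ?_
    rw [hL]
    simp only [if_pos hq, sum_singleton, psiAP_mod]
  rw [h2, one_mul] at h1
  -- the three terms
  have t1 : (X : ℝ) / Real.log X ^ U ≤ 2 ^ U * (x / ℓ ^ U) := by
    calc (X : ℝ) / Real.log X ^ U ≤ x / (ℓ / 2) ^ U := by gcongr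
      _ = 2 ^ U * (x / ℓ ^ U) := by
          rw [div_pow]
          field_simp
  have t2 : |Chebyshev.psi (X : ℝ) - X| ≤ (C * 2 ^ W + 2) * (x / ℓ ^ W) := by
    have h3 := hpnt X hXN1
    have h4 : (X : ℝ) / Real.log X ^ W ≤ 2 ^ W * (x / ℓ ^ W) := by
      calc (X : ℝ) / Real.log X ^ W ≤ x / (ℓ / 2) ^ W := by gcongr
        _ = 2 ^ W * (x / ℓ ^ W) := by
            rw [div_pow]
            field_simp
    have h5 : (1 : ℝ) ≤ x / ℓ ^ W := by
      rw [one_le_div (by positivity)]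
      rw [one_mul] at g4
      have h6 : √(x : ℝ) ≤ x := by
        have h7 : (1 : ℝ) ≤ √(x : ℝ) := by rw [Real.one_le_sqrt]; linarith
        nlinarith
      exact g4.trans h6
    calc |Chebyshev.psi (X : ℝ) - X| ≤ C * (X / Real.log X ^ W) + 2 := h3
      _ ≤ C * (2 ^ W * (x / ℓ ^ W)) + 2 * (x / ℓ ^ W) := by
          gcongr
          linarith
      _ = _ := by ring
  have t3 : (D : ℝ) * (Chebyshev.psi (X : ℝ) - Chebyshev.theta (X : ℝ)) ≤
      2 * (x / ℓ ^ (A + 1)) := by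
    have h3 := Chebyshev.psi_sub_theta_le (x := (X : ℝ)) (by linarith)
    have h4 : (D : ℝ) * √(x : ℝ) * ℓ ^ (A + 2) ≤ x := by
      have h5 : ((D : ℝ) * √(x : ℝ) * ℓ ^ (A + 2)) ^ 2 ≤ (x : ℝ) ^ 2 := by
        calc ((D : ℝ) * √(x : ℝ) * ℓ ^ (A + 2)) ^ 2
            = (D : ℝ) ^ 2 * ℓ ^ (2 * A + 4) * (√(x : ℝ) * √(x : ℝ)) := by ring
          _ ≤ (D : ℝ) ^ 2 * ℓ ^ K * x := by
              rw [hsx]
              gcongr
              omega
          _ ≤ x * x := by gcongr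
          _ = (x : ℝ) ^ 2 := by ring
      exact (sq_le_sq₀ (by positivity) hx0.le).mp h5
    calc (D : ℝ) * (Chebyshev.psi (X : ℝ) - Chebyshev.theta (X : ℝ))
        ≤ D * (2 * √(X : ℝ) * Real.log X) := by gcongr
      _ ≤ D * (2 * √(x : ℝ) * ℓ) := by gcongr
      _ = 2 * ((D : ℝ) * √(x : ℝ) * ℓ ^ (A + 2) / ℓ ^ (A + 1)) := by
          field_simp
          ring
      _ ≤ 2 * (x / ℓ ^ (A + 1)) := by gcongr
  have hsum := sum_inv c0 hk hDx (by rw [← hℓ]; exact hℓ1)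
  rw [← hℓ] at hsum
  calc ∑ m ∈ Icc 1 D, |EH X m (r m)|
      ≤ ∑ m ∈ Icc 1 D, (|psiAP (X : ℝ) m (r m) - psi1 (X : ℝ) / (Nat.totient m : ℝ)| +
          |Chebyshev.psi (X : ℝ) - X| * (1 / (Nat.totient m : ℝ)) +
          (Chebyshev.psi (X : ℝ) - Chebyshev.theta (X : ℝ))) := sum_le_sum fun m _ => EH_le
    _ = ∑ m ∈ Icc 1 D, |psiAP (X : ℝ) m (r m) - psi1 (X : ℝ) / (Nat.totient m : ℝ)| +
          |Chebyshev.psi (X : ℝ) - X| * ∑ m ∈ Icc 1 D, (1 / (Nat.totient m : ℝ)) +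
          D * (Chebyshev.psi (X : ℝ) - Chebyshev.theta (X : ℝ)) := by
        rw [sum_add_distrib, sum_add_distrib, ← mul_sum, sum_const, Nat.card_Icc, nsmul_eq_mul]
        simp
    _ ≤ 2 ^ U * (x / ℓ ^ U) + ((C * 2 ^ W + 2) * (x / ℓ ^ W)) * (2 * ℓ) ^ c0 +
          2 * (x / ℓ ^ (A + 1)) := by
        refine add_le_add (add_le_add (h1.trans t1) ?_) t3
        exact mul_le_mul t2 hsum (sum_nonneg fun _ _ => by positivity) (by positivity)
    _ = S * (x / ℓ ^ (A + 1)) := by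
        rw [hS, hU, hW, mul_pow]
        field_simp
        ring
    _ ≤ ℓ * (x / ℓ ^ (A + 1)) := by
        gcongr
        linarith
    _ = x / ℓ ^ A := by
        field_simp
        ring

theorem t_BVH : Pool.Agent.N728.QL.S_BVH := by
  classical
  intro A
  obtain ⟨k, hk⟩ := Pool.Agent.H398R2.BV.sum_pow_omega_div_totient 1 le_rfl
  obtain ⟨c0, hc0⟩ : ∃ c : ℕ, c = 2 ^ k := ⟨_, rfl⟩
  rw [← hc0] at hk
  obtain ⟨V, hV⟩ : ∃ V : ℕ, V = A + c0 + 1 := ⟨_, rfl⟩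
  obtain ⟨K, X0, hgp⟩ := grid_pt (A + V + 1) V
  obtain ⟨S, hS⟩ : ∃ S : ℝ, S = 8 + 2 ^ (c0 + 1) := ⟨_, rfl⟩
  have hev1 := ev_log 4 V (1 / 2) (by norm_num)
  have hev3 : ∀ᶠ X : ℝ in Filter.atTop, S ≤ Real.log X :=
    Real.tendsto_log_atTop.eventually (Filter.eventually_ge_atTop _)
  have hev5 : ∀ᶠ X : ℝ in Filter.atTop, (4 : ℝ) ≤ X := Filter.eventually_ge_atTop _
  obtain ⟨Y, hY⟩ := Filter.eventually_atTop.mp (hev1.and (hev3.and hev5))
  refine ⟨K, max X0 ⌈Y⌉₊, ?_⟩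
  intro x hx D hD r h hr hh
  obtain ⟨g1, g3, g5⟩ := hY x (Nat.ceil_le.mp ((le_max_right _ _).trans hx))
  have hx0' : X0 ≤ x := (le_max_left _ _).trans hx
  have hgp' := hgp x hx0' D hD r hr
  change ∑ m ∈ Icc 1 D, |EH (h m) m (r m)| ≤ x / Real.log x ^ A
  obtain ⟨ℓ, hℓ⟩ : ∃ ℓ : ℝ, ℓ = Real.log x := ⟨_, rfl⟩
  rw [← hℓ] at g1 g3 hD hgp' ⊢
  have hS0 : 8 ≤ S := by
    rw [hS]
    have : (0 : ℝ) < 2 ^ (c0 + 1) := by positivity
    linarith
  have hxr : (0 : ℝ) < x := by linarith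
  have hx0 : 0 < x := by exact_mod_cast hxr
  have hℓ8 : 8 ≤ ℓ := by linarith
  have hℓ0 : 0 < ℓ := by linarith
  have hℓ1 : 1 ≤ ℓ := by linarith
  rw [← Real.sqrt_eq_rpow] at g1
  have hx4 : 4 * ℓ ^ V ≤ x := by
    have h6 : √(x : ℝ) ≤ x := by
      have h7 : (1 : ℝ) ≤ √(x : ℝ) := by rw [Real.one_le_sqrt]; linarith
      have h8 := Real.mul_self_sqrt hxr.le
      nlinarith
    exact g1.trans h6
  have hDx : D ≤ x := by
    have h1 : (D : ℝ) ≤ x := by
      have h2 : (D : ℝ) ≤ D ^ 2 := by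
        have : D ≤ D ^ 2 := Nat.le_self_pow (by norm_num) D
        exact_mod_cast this
      have h3 : (D : ℝ) ^ 2 * 1 ≤ (D : ℝ) ^ 2 * ℓ ^ K :=
        mul_le_mul_of_nonneg_left (one_le_pow₀ hℓ1) (by positivity)
      linarith
    exact_mod_cast h1
  -- the grid
  set G : ℕ := ⌈ℓ ^ V⌉₊ with hG
  have hL1 : 1 ≤ ℓ ^ V := one_le_pow₀ hℓ1
  have hG1 : ℓ ^ V ≤ G := Nat.le_ceil _
  have hG2 : (G : ℝ) ≤ 2 * ℓ ^ V := by
    have := Nat.ceil_lt_add_one (by positivity : 0 ≤ ℓ ^ V)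
    linarith
  have hG0 : 0 < G := by
    have : (0 : ℝ) < G := by linarith
    exact_mod_cast this
  have hGr : (0 : ℝ) < G := by exact_mod_cast hG0
  set g : ℕ → ℕ := fun i => i * x / G with hg
  have hg0 : g 0 = 0 := by simp [hg]
  have hgx : ∀ i, i ≤ G → g i ≤ x := by
    intro i hi
    rw [hg]
    apply Nat.div_le_of_le_mul
    exact Nat.mul_le_mul_right x hi
  have hglow : ∀ i, 1 ≤ i → (x : ℝ) ≤ (g i : ℕ) * (4 * ℓ ^ V) := by
    intro i hi
    have h1 : (x : ℝ) / G < (g i : ℕ) + 1 := by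
      rw [div_lt_iff₀ hGr]
      have h2 := Nat.lt_mul_div_succ (i * x) hG0
      have h3 : x ≤ i * x := Nat.le_mul_of_pos_left x hi
      have h5 : (x : ℝ) < ((G * (i * x / G + 1) : ℕ) : ℝ) := by
        exact_mod_cast lt_of_le_of_lt h3 h2
      rw [hg]
      push_cast at h5 ⊢
      linarith
    have h2 : (x : ℝ) / (2 * ℓ ^ V) ≤ x / G := div_le_div_of_nonneg_left hxr.le hGr hG2
    have h3 : (1 : ℝ) ≤ x / (4 * ℓ ^ V) := by
      rw [one_le_div (by positivity)]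
      exact hx4
    have h4 : (x : ℝ) / (2 * ℓ ^ V) = 2 * (x / (4 * ℓ ^ V)) := by
      field_simp
      ring
    have h5 : (x : ℝ) / (4 * ℓ ^ V) ≤ (g i : ℕ) := by linarith
    rwa [div_le_iff₀ (by positivity)] at h5
  have hgrid : ∀ m ∈ Icc 1 D, |EH (h m) m (r m)| ≤ (∑ i ∈ Icc 1 G, 2 * |EH (g i) m (r m)|) +
      (x / G + 1) * (1 / (Nat.totient m : ℝ)) := by
    intro m hm
    have hm1 : 1 ≤ m := (mem_Icc.1 hm).1
    have ht : (0 : ℝ) < Nat.totient m := by exact_mod_cast Nat.totient_pos.2 hm1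
    set i : ℕ := h m * G / x with hi
    have hiG : i ≤ G := by
      rw [hi]
      apply Nat.div_le_of_le_mul
      exact Nat.mul_le_mul_right G (hh m)
    have h0 : g i ≤ h m := by
      rw [hg]
      apply Nat.div_le_of_le_mul
      have := Nat.div_mul_le_self (h m * G) x
      rw [← hi] at this
      linarith
    have hsum : ∀ j, j ≤ G → |EH (g j) m (r m)| ≤ ∑ i ∈ Icc 1 G, |EH (g i) m (r m)| := by
      intro j hj
      rcases Nat.eq_zero_or_pos j with rfl | hj0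
      · rw [hg0, EH_zero, abs_zero]
        exact sum_nonneg fun _ _ => abs_nonneg _
      · exact single_le_sum (f := fun i => |EH (g i) m (r m)|) (fun _ _ => abs_nonneg _)
          (mem_Icc.2 ⟨hj0, hj⟩)
    rcases Nat.lt_or_ge i G with hlt | hge
    · have h1 : h m ≤ g (i + 1) := by
        rw [hg]
        rw [Nat.le_div_iff_mul_le hG0]
        have := Nat.lt_mul_div_succ (h m * G) hx0
        rw [← hi] at this
        linarith
      have h2 := EH_between (m := m) (r := r m) hm1 h0 h1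
      refine h2.trans ?_
      have h3 : ((g (i + 1) : ℕ) : ℝ) - (g i : ℕ) ≤ x / G + 1 := by
        have e1 : ((g (i + 1) : ℕ) : ℝ) ≤ ((i + 1) * x : ℝ) / G := by
          rw [hg]
          have := @Nat.cast_div_le ℝ _ _ _ ((i + 1) * x) G
          push_cast at this ⊢
          exact this
        have e2 : ((i * x : ℝ)) / G < (g i : ℕ) + 1 := by
          rw [div_lt_iff₀ hGr]
          have := Nat.lt_mul_div_succ (i * x) hG0
          rw [hg]
          have h5 : ((i * x : ℕ) : ℝ) < ((G * (i * x / G + 1) : ℕ) : ℝ) := by exact_mod_cast this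
          push_cast at h5 ⊢
          linarith
        have e3 : ((i + 1) * x : ℝ) / G = (i * x : ℝ) / G + x / G := by ring
        rw [e3] at e1
        linarith
      have h4 : (((g (i + 1) : ℕ) : ℝ) - (g i : ℕ)) * (1 / (Nat.totient m : ℝ)) ≤
          (x / G + 1) * (1 / (Nat.totient m : ℝ)) := mul_le_mul_of_nonneg_right h3 (by positivity)
      have h5 := hsum i hiG
      have h6 := hsum (i + 1) (by omega)
      rw [← mul_sum]
      linarith
    · have hi' : i = G := le_antisymm hiG hge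
      have h1 : g i = x := by
        rw [hi', hg]
        exact Nat.mul_div_cancel_left x hG0
      have h2 : h m = g i := by
        apply le_antisymm _ h0
        rw [h1]
        exact hh m
      rw [h2]
      have h5 := hsum i hiG
      have h6 : 0 ≤ (x / G + 1) * (1 / (Nat.totient m : ℝ)) := by positivity
      have h7 : 0 ≤ ∑ i ∈ Icc 1 G, |EH (g i) m (r m)| := sum_nonneg fun _ _ => abs_nonneg _
      rw [← mul_sum]
      linarith
  have hsum := sum_inv c0 hk hDx (by rw [← hℓ]; exact hℓ1)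
  rw [← hℓ] at hsum
  refine (sum_le_sum hgrid).trans ?_
  rw [sum_add_distrib, ← mul_sum, sum_comm]
  have h1 : ∑ i ∈ Icc 1 G, ∑ m ∈ Icc 1 D, 2 * |EH (g i) m (r m)| ≤
      (G : ℝ) * (2 * (x / ℓ ^ (A + V + 1))) := by
    have : ∀ i ∈ Icc 1 G, ∑ m ∈ Icc 1 D, 2 * |EH (g i) m (r m)| ≤
        2 * (x / ℓ ^ (A + V + 1)) := by
      intro i hi
      rw [← mul_sum]
      apply mul_le_mul_of_nonneg_left _ (by norm_num)
      have hi' := mem_Icc.1 hi
      exact hgp' (g i) (hgx i hi'.2) (hglow i hi'.1)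
    refine (sum_le_sum this).trans (le_of_eq ?_)
    rw [sum_const, Nat.card_Icc, nsmul_eq_mul]
    simp
  have h2 : (G : ℝ) * (2 * (x / ℓ ^ (A + V + 1))) ≤ 4 * (x / ℓ ^ (A + 1)) := by
    calc (G : ℝ) * (2 * (x / ℓ ^ (A + V + 1))) ≤ (2 * ℓ ^ V) * (2 * (x / ℓ ^ (A + V + 1))) := by
          gcongr
      _ = 4 * (x / ℓ ^ (A + 1)) := by
          have : ℓ ^ (A + V + 1) = ℓ ^ V * ℓ ^ (A + 1) := by rw [← pow_add]; congr 1; ring
          rw [this]
          field_simp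
          ring
  have h3 : ((x : ℝ) / G + 1) * ∑ m ∈ Icc 1 D, (1 / (Nat.totient m : ℝ)) ≤
      2 ^ (c0 + 1) * (x / ℓ ^ (A + 1)) := by
    have e1 : (x : ℝ) / G ≤ x / ℓ ^ V := div_le_div_of_nonneg_left hxr.le (by positivity) hG1
    have e2 : (1 : ℝ) ≤ x / ℓ ^ V := by
      rw [one_le_div (by positivity)]
      linarith
    calc ((x : ℝ) / G + 1) * ∑ m ∈ Icc 1 D, (1 / (Nat.totient m : ℝ))
        ≤ (2 * (x / ℓ ^ V)) * (2 * ℓ) ^ c0 :=
          mul_le_mul (by linarith) hsum (sum_nonneg fun _ _ => by positivity) (by positivity)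
      _ = 2 ^ (c0 + 1) * (x / ℓ ^ (A + 1)) := by
          have : ℓ ^ V = ℓ ^ c0 * ℓ ^ (A + 1) := by rw [← pow_add, hV]; congr 1; ring
          rw [this, mul_pow]
          field_simp
          ring
  calc _ ≤ 4 * (x / ℓ ^ (A + 1)) + 2 ^ (c0 + 1) * (x / ℓ ^ (A + 1)) :=
        add_le_add (h1.trans h2) h3
    _ ≤ S * (x / ℓ ^ (A + 1)) := by
        rw [hS]
        have : 0 < (x : ℝ) / ℓ ^ (A + 1) := by positivity
        linarith
    _ ≤ ℓ * (x / ℓ ^ (A + 1)) := by gcongr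
    _ = x / ℓ ^ A := by
        field_simp
        ring

end

end Pool.Agent.N622.QL
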